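import Mathlib
import Pool.Agent.R91.PSD.Structure

/-!
# Graphs whose minimal PSD forcing sets all have propagation time one

If `G` is a connected graph whose upper PSD propagation time is `1`, then `G` is a PSD fast join.
-/

namespace Pool.Agent.Results.MP_6036e3_co.PSDFastJoin

universe u

variable {V : Type u} (G : SimpleGraph V)

/-- `u` may force `w` when exactly `B` is blue: `u` is blue and `w` is the unique neighbour of `u`
in some connected component of `G - B` -/
def CanForce (B : Set V) (u w : V) : Prop :=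
  u ∈ B ∧ ∃ C : (G.induce Bᶜ).ConnectedComponent,
    G.neighborSet u ∩ (Subtype.val '' C.supp) = {w}

/-- the white vertices that some vertex can force when exactly `B` is blue -/
def newBlue (B : Set V) : Set V := {w | w ∉ B ∧ ∃ u, CanForce G B u w}

/-- the set of blue vertices after `i` rounds -/
def blue (B : Set V) : ℕ → Set V
  | 0 => B
  | i + 1 => blue B i ∪ newBlue G (blue B i)

/-- the vertices which become blue in round `i` (`i ≥ 1`); no vertex does in round `0` -/
def forcedIn (B : Set V) : ℕ → Set V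
  | 0 => ∅
  | i + 1 => newBlue G (blue G B i)

/-- the largest index `p` such that some vertex becomes blue in round `p`, and `0` if there is
none -/
noncomputable def lastRound (B : Set V) : ℕ := sSup {i | (forcedIn G B i).Nonempty}

/-- PSD forcing sets -/
def IsForcing (B : Set V) : Prop := blue G B (lastRound G B) = Set.univ

/-- minimal PSD forcing sets -/
def IsMinForcing (B : Set V) : Prop := IsForcing G B ∧ ∀ B' ⊂ B, ¬ IsForcing G B'

/-- the upper PSD propagation time: the maximum of the propagation times of the minimal PSD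
forcing sets -/
noncomputable def upperPt : ℕ := sSup {p | ∃ B, IsMinForcing G B ∧ lastRound G B = p}

/-- the graph `(K_{s(0,true)} ⊔ K_{s(0,false)}) ∨ ⋯ ∨ (K_{s(t-1,true)} ⊔ K_{s(t-1,false)})`:
distinct vertices are adjacent if and only if they lie in different terms of the join or in the
same complete graph -/
def joinGraph (t : ℕ) (s : Fin t × Bool → ℕ) : SimpleGraph (Σ p : Fin t × Bool, Fin (s p)) where
  Adj x y := x ≠ y ∧ (x.1.1 ≠ y.1.1 ∨ x.1 = y.1)
  symm := ⟨fun _ _ h => ⟨h.1.symm, h.2.imp Ne.symm Eq.symm⟩⟩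
  loopless := ⟨fun _ h => h.1 rfl⟩

/-- PSD fast joins -/
def IsPSDFastJoin : Prop :=
  (∃ n, 2 ≤ n ∧ Nonempty (G ≃g (⊤ : SimpleGraph (Fin n)))) ∨
    ∃ t, 2 ≤ t ∧ ∃ s : Fin t × Bool → ℕ, (∀ p, 0 < s p) ∧ Nonempty (G ≃g joinGraph t s)

/-! ### The forcing process -/

variable {G}

theorem blue_stable {B : Set V} {i : ℕ} (h : newBlue G (blue G B i) = ∅) (j : ℕ) :
    blue G B (i + j) = blue G B i := by
  induction j with
  | zero => rfl
  | succ j ih =>
    change blue G B (i + j) ∪ newBlue G (blue G B (i + j)) = blue G B i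
    rw [ih, h, Set.union_empty]

theorem blue_mono (B : Set V) (i : ℕ) : B ⊆ blue G B i := by
  induction i with
  | zero => exact subset_rfl
  | succ i ih => exact ih.trans Set.subset_union_left

theorem round_dichotomy [Finite V] (B : Set V) (i : ℕ) :
    (∃ j < i, newBlue G (blue G B j) = ∅) ∨ i ≤ (blue G B i).ncard := by
  induction i with
  | zero => right; exact Nat.zero_le _
  | succ i ih =>
    rcases ih with ⟨j, hj, h⟩ | h
    · exact Or.inl ⟨j, by omega, h⟩
    · by_cases hne : newBlue G (blue G B i) = ∅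
      · exact Or.inl ⟨i, by omega, hne⟩
      · right
        obtain ⟨w, hw⟩ := Set.nonempty_iff_ne_empty.mpr hne
        have h1 : blue G B i ⊂ blue G B (i + 1) := by
          refine ⟨Set.subset_union_left, ?_⟩
          intro h2
          exact hw.1 (h2 (Or.inr hw))
        have := Set.ncard_lt_ncard h1 (Set.toFinite _)
        omega

theorem forcedIn_le [Finite V] {B : Set V} {i : ℕ} (h : (forcedIn G B i).Nonempty) :
    i ≤ Nat.card V := by
  cases i with
  | zero => exact Nat.zero_le _
  | succ i =>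
    rcases round_dichotomy (G := G) B (i + 1) with ⟨j, hj, hje⟩ | h1
    · exfalso
      have h2 := blue_stable hje (i - j)
      have h3 : j + (i - j) = i := by omega
      rw [h3] at h2
      change (newBlue G (blue G B i)).Nonempty at h
      rw [h2, hje] at h
      exact Set.not_nonempty_empty h
    · calc i + 1 ≤ (blue G B (i + 1)).ncard := h1
        _ ≤ (Set.univ : Set V).ncard := Set.ncard_le_ncard (Set.subset_univ _) (Set.toFinite _)
        _ = Nat.card V := Set.ncard_univ V

theorem bdd [Finite V] (B : Set V) : BddAbove {i | (forcedIn G B i).Nonempty} :=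
  ⟨Nat.card V, fun _ hi => forcedIn_le hi⟩

theorem lastRound_le [Finite V] (B : Set V) : lastRound G B ≤ Nat.card V := by
  unfold lastRound
  by_cases h : {i | (forcedIn G B i).Nonempty}.Nonempty
  · exact csSup_le h (fun _ hi => forcedIn_le hi)
  · rw [Set.not_nonempty_iff_eq_empty.mp h]
    simp

theorem after_last [Finite V] (B : Set V) : newBlue G (blue G B (lastRound G B)) = ∅ := by
  by_contra h
  have h1 : lastRound G B + 1 ∈ {i | (forcedIn G B i).Nonempty} :=
    Set.nonempty_iff_ne_empty.mpr h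
  have := le_csSup (bdd B) h1
  unfold lastRound at this
  omega

/-! ### Independent sets and forcing sets -/

open R91.PSD

/-- reachability inside a connected finset -/
theorem reach_of_conn [DecidableEq V] {W : Finset V} (hW : Conn G W) {U : Set V}
    (hWU : ∀ x ∈ W, x ∈ U) {x : V} (hx : x ∈ W) :
    ∀ y, (hy : y ∈ W) → (G.induce U).Reachable ⟨x, hWU x hx⟩ ⟨y, hWU y hy⟩ := by
  classical
  have h := hW.2 (W.filter (fun y => ∃ hy : y ∈ W, (G.induce U).Reachable ⟨x, hWU x hx⟩
    ⟨y, hWU y hy⟩)) (Finset.filter_subset _ _)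
    ⟨x, by
      rw [Finset.mem_filter]
      exact ⟨hx, hx, SimpleGraph.Reachable.refl _⟩⟩
    (by
      intro a ha b hb hab
      rw [Finset.mem_filter] at ha ⊢
      obtain ⟨haW, haW', hr⟩ := ha
      refine ⟨hb, hb, hr.trans ?_⟩
      apply SimpleGraph.Adj.reachable
      exact hab)
  intro y hy
  rw [← h, Finset.mem_filter] at hy
  exact hy.2.2

/-- closed sets contain everything reachable -/
theorem mem_of_reach {U : Set V} {F : Finset V}
    (hcl : ∀ a ∈ F, ∀ b ∈ U, G.Adj a b → b ∈ F) {x y : U} (hx : x.1 ∈ F)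
    (h : (G.induce U).Reachable x y) : y.1 ∈ F := by
  obtain ⟨p⟩ := h
  induction p with
  | nil => exact hx
  | cons hadj _ ih => exact ih (hcl _ hx _ (Subtype.property _) hadj)

theorem conn_univ [Fintype V] [DecidableEq V] (h : G.Connected) : Conn G Finset.univ := by
  obtain ⟨v⟩ := h.nonempty
  refine ⟨⟨v, Finset.mem_univ _⟩, ?_⟩
  intro A _ hne hcl
  obtain ⟨a, ha⟩ := hne
  apply Finset.Subset.antisymm (Finset.subset_univ _)
  intro y hy
  clear hy
  obtain ⟨p⟩ := h.preconnected a y
  induction p with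
  | nil => exact ha
  | cons hadj _ ih => exact ih (hcl _ ha _ (Finset.mem_univ _) hadj)

theorem forcing_of_ind [Fintype V] [DecidableEq V] {W : Finset V} (hW : Ind G W) :
    IsForcing G ((W : Set V)ᶜ) := by
  classical
  by_contra hnf
  set D := blue G ((W : Set V)ᶜ) (lastRound G ((W : Set V)ᶜ)) with hD
  have hlast : newBlue G D = ∅ := after_last _
  have hne : ∃ x, x ∉ D := by
    by_contra hcon
    push Not at hcon
    exact hnf (Set.eq_univ_of_forall hcon)
  obtain ⟨x, hx⟩ := hne
  obtain ⟨F, hFU, hxF, hFc, hFcl⟩ := exists_comp (G := G)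
    (Finset.univ.filter (fun x => x ∉ D)) (x := x) (by simp [hx])
  have hFD : ∀ y ∈ F, y ∉ D := by
    intro y hy
    have := hFU hy
    simpa using this
  have hFW : F ⊆ W := by
    intro y hy
    by_contra hyW
    exact hFD y hy (blue_mono _ _ (by simpa using hyW))
  have hnfort := hW F hFW
  have hex : ∃ w b, Priv G F w b := by
    by_contra hcon
    push Not at hcon
    exact hnfort ⟨hFc, hcon⟩
  obtain ⟨w, b, hb⟩ := hex
  have hbw : G.Adj b w := (hb.2.2 w hb.2.1).mpr rfl
  have hbD : b ∈ D := by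
    by_contra hbD
    exact hb.1 (hFcl w hb.2.1 b (by simp [hbD]) hbw.symm)
  have hFU' : ∀ y ∈ F, y ∈ Dᶜ := hFD
  have hw : w ∈ newBlue G D := by
    refine ⟨hFD w hb.2.1, b, hbD,
      (G.induce Dᶜ).connectedComponentMk ⟨w, hFU' w hb.2.1⟩, ?_⟩
    ext y
    constructor
    · rintro ⟨h1, z, hz, rfl⟩
      rw [SimpleGraph.ConnectedComponent.mem_supp_iff, SimpleGraph.ConnectedComponent.eq] at hz
      have hzF : z.1 ∈ F := by
        apply mem_of_reach (U := Dᶜ) (x := ⟨w, hFU' w hb.2.1⟩) _ hb.2.1 hz.symm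
        intro a ha c hc hac
        exact hFcl a ha c (by simpa using hc) hac
      exact (hb.2.2 z.1 hzF).mp h1
    · rintro rfl
      refine ⟨hbw, ⟨y, hFU' y hb.2.1⟩, ?_, rfl⟩
      rw [SimpleGraph.ConnectedComponent.mem_supp_iff]
  rw [hlast] at hw
  exact hw

theorem pp_of_upperPt [Fintype V] [DecidableEq V] (h : upperPt G = 1) : PP G := by
  classical
  intro W hWc hW w hw
  have hfor := forcing_of_ind hW
  -- a minimal forcing subset
  obtain ⟨B0, hB0, hmin⟩ := exists_minimal_le_of_wellFoundedLT (fun B => IsForcing G B) _ hfor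
  have hB0min : IsMinForcing G B0 := by
    refine ⟨hmin.prop, ?_⟩
    intro B' hB' hf
    exact hB'.2 (hmin.le_of_le hf hB'.1)
  have hle : lastRound G B0 ≤ 1 := by
    rw [← h]
    apply le_csSup
    · refine ⟨Nat.card V, ?_⟩
      rintro p ⟨B, -, rfl⟩
      exact lastRound_le B
    · exact ⟨B0, hB0min, rfl⟩
  have hB1 : blue G B0 1 = Set.univ := by
    have h1 : blue G B0 (lastRound G B0) = Set.univ := hB0min.1
    have h2 : lastRound G B0 = 0 ∨ lastRound G B0 = 1 := by omega
    rcases h2 with h2 | h2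
    · rw [h2] at h1
      apply Set.eq_univ_of_univ_subset
      rw [← h1]
      exact Set.subset_union_left
    · rw [h2] at h1
      exact h1
  have hWB : ∀ x ∈ W, x ∈ B0ᶜ := by
    intro x hx hxB
    have := hB0 hxB
    simp only [Set.mem_compl_iff, Finset.mem_coe] at this
    exact this hx
  have hw1 : w ∈ blue G B0 1 := by rw [hB1]; exact Set.mem_univ _
  have hw2 : w ∈ newBlue G B0 := by
    rcases hw1 with h1 | h1
    · exact absurd h1 (hWB w hw)
    · exact h1
  obtain ⟨-, b, hbB, C, hC⟩ := hw2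
  have hbW : b ∉ W := fun h1 => hWB b h1 hbB
  have hwC : w ∈ G.neighborSet b ∩ (Subtype.val '' C.supp) := by rw [hC]; exact Set.mem_singleton _
  obtain ⟨hbw, z, hz, hzw⟩ := hwC
  have hsub : ∀ x ∈ W, x ∈ (Subtype.val '' C.supp : Set V) := by
    intro x hx
    have hr := reach_of_conn hWc hWB hw x hx
    refine ⟨⟨x, hWB x hx⟩, ?_, rfl⟩
    rw [SimpleGraph.ConnectedComponent.mem_supp_iff] at hz ⊢
    rw [← hz, SimpleGraph.ConnectedComponent.eq]
    have hzw' : z = ⟨w, hWB w hw⟩ := Subtype.ext hzw
    rw [hzw']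
    exact hr.symm
  refine ⟨b, hbW, hw, ?_⟩
  intro x hx
  constructor
  · intro hbx
    have : x ∈ G.neighborSet b ∩ (Subtype.val '' C.supp) := ⟨hbx, hsub x hx⟩
    rw [hC] at this
    exact this
  · rintro rfl
    exact hbw

theorem two_of_upperPt (h : upperPt G = 1) : ∃ x y : V, x ≠ y := by
  have hne : {p | ∃ B, IsMinForcing G B ∧ lastRound G B = p}.Nonempty := by
    by_contra h1
    unfold upperPt at h
    rw [Set.not_nonempty_iff_eq_empty.mp h1] at h
    simp at h
  have hbdd : BddAbove {p | ∃ B, IsMinForcing G B ∧ lastRound G B = p} := by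
    by_contra h1
    unfold upperPt at h
    rw [Nat.sSup_of_not_bddAbove h1] at h
    omega
  have hmem := Nat.sSup_mem hne hbdd
  change upperPt G ∈ _ at hmem
  rw [h] at hmem
  obtain ⟨B, -, hB⟩ := hmem
  have hne' : {i | (forcedIn G B i).Nonempty}.Nonempty := by
    by_contra h1
    unfold lastRound at hB
    rw [Set.not_nonempty_iff_eq_empty.mp h1] at hB
    simp at hB
  have hbdd' : BddAbove {i | (forcedIn G B i).Nonempty} := by
    by_contra h1
    unfold lastRound at hB
    rw [Nat.sSup_of_not_bddAbove h1] at hB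
    omega
  have hmem' := Nat.sSup_mem hne' hbdd'
  change lastRound G B ∈ _ at hmem'
  rw [hB] at hmem'
  obtain ⟨w, hw, b, hb, -⟩ := hmem'
  exact ⟨w, b, fun h1 => hw (h1 ▸ hb)⟩

/-- **Full answer to Q1**: a connected graph with upper PSD propagation time `1` is a PSD fast
join. -/
theorem result {V : Type u} [Finite V] (G : SimpleGraph V) (hG : G.Connected)
    (h : upperPt G = 1) : IsPSDFastJoin G := by
  classical
  have : Fintype V := Fintype.ofFinite V
  obtain ⟨x0, y0, hxy0⟩ := two_of_upperPt h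
  have hnice : Nice G := ⟨conn_univ hG, ⟨x0, y0, hxy0⟩, pp_of_upperPt h⟩
  by_cases hnc : ∃ x y : V, x ≠ y ∧ ¬ G.Adj x y
  · right
    obtain ⟨t, ht, c, hc, hadj⟩ := structure_thm hnice hnc
    refine ⟨t, ht, fun p => Fintype.card {x // c x = p}, ?_, ⟨?_⟩⟩
    · intro p
      obtain ⟨x, hx⟩ := hc p
      exact Fintype.card_pos_iff.mpr ⟨⟨x, hx⟩⟩
    · let e : V ≃ Σ p : Fin t × Bool, Fin (Fintype.card {x // c x = p}) :=
        (Equiv.sigmaFiberEquiv c).symm.trans
          (Equiv.sigmaCongrRight (fun p => Fintype.equivFin {x // c x = p}))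
      have he : ∀ x, (e x).1 = c x := fun x => rfl
      refine ⟨e, ?_⟩
      intro x y
      change (e x ≠ e y ∧ ((e x).1.1 ≠ (e y).1.1 ∨ (e x).1 = (e y).1)) ↔ G.Adj x y
      rw [hadj, he, he, Ne, e.apply_eq_iff_eq]
  · left
    push Not at hnc
    refine ⟨Fintype.card V, ?_, ⟨Fintype.equivFin V, ?_⟩⟩
    · rw [← Nat.lt_iff_add_one_le, Fintype.one_lt_card_iff]
      exact ⟨x0, y0, hxy0⟩
    · intro x y
      simp only [SimpleGraph.top_adj, ne_eq, EmbeddingLike.apply_eq_iff_eq]
      exact ⟨fun h1 => hnc x y h1, fun h1 => h1.ne⟩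

end Pool.Agent.Results.MP_6036e3_co.PSDFastJoin
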